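import Pool.Agent.Helper75.AL.Sts
import Pool.Agent.Helper36.LQ.Bas

/-!
Package W4 (the core) of the abstract local linear law.
-/

set_option autoImplicit false
set_option maxHeartbeats 4000000

open Complex Filter Topology Set Metric

namespace Pool.Agent.Helper85.AL

open Pool.Agent.Helper75.AL Pool.Agent.Helper75.LQ

/-- the numerical core -/
theorem core_abs {a : ℕ → ℝ} {V1 V2 b R R2 r ℓ μ' h κ' ε : ℝ} (hb0 : 0 < b) (hbR2 : b ≤ R2) (hRR : R ^ 2 ≤ b * R2)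
    (hR0 : 0 < R) (hr0 : 0 < r) (hrR2 : r ≤ R2) (hℓ : 0 ≤ ℓ) (hκ' : 0 ≤ κ')
    (hμ' : 0 ≤ μ') (hpos : ∀ m : ℕ, κ' * ℓ ≤ m → 0 ≤ a m)
    (hhead : ∀ m : ℕ, |a m| ≤ Real.exp (ℓ * h) / r ^ (2 * m))
    (S1' : HasSum (fun m : ℕ => a m * b ^ (2 * m)) 0)
    (S2' : HasSum (fun m : ℕ => a m * R2 ^ (2 * m)) V2)
    (S3' : HasSum (fun m : ℕ => a m * R ^ (2 * m)) V1)
    (hV1 : Real.exp (ℓ * (R - ε)) ≤ V1)
    (hV2 : V2 ≤ Real.exp (ℓ * (R2 + ε)))
    (h1 : R2 + ε - μ' ≤ R - 2 * ε) (h2 : h + μ' + 2 * κ' * Real.log (R2 / r) + ε ≤ R - 2 * ε)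
    (hbig : 2 * (κ' * ℓ + 1) ≤ Real.exp (ε * ℓ)) (hbig2 : 1 < Real.exp (ε * ℓ)) : False := by
  have hR20 : 0 < R2 := by linarith
  obtain ⟨μ, hμ⟩ : ∃ μ : ℝ, μ = Real.exp (ℓ * μ') := ⟨_, rfl⟩
  have hμ0 : 0 < μ := by rw [hμ]; exact Real.exp_pos _
  have hμ1 : 1 ≤ μ := by rw [hμ]; exact Real.one_le_exp (by positivity)
  have hl0 : 0 ≤ Real.log (R2 / r) := Real.log_nonneg (by rw [le_div_iff₀ hr0]; linarith)
  have S1 := S1'.mul_left μ
  have S2 := S2'.mul_left μ⁻¹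
  have S3 := S3'.mul_left 2
  have S := (S1.add S2).sub S3
  obtain ⟨w, hw⟩ : ∃ w : ℕ → ℝ, w = fun m => μ * b ^ (2 * m) + μ⁻¹ * R2 ^ (2 * m) - 2 * R ^ (2 * m) := ⟨_, rfl⟩
  have hw0 : ∀ m, 0 ≤ w m := by
    intro m
    have h1 : R ^ (2 * m) ≤ b ^ m * R2 ^ m := by
      rw [pow_mul, ← mul_pow]
      exact pow_le_pow_left₀ (sq_nonneg _) hRR m
    have h2 : 2 * (b ^ m * R2 ^ m) ≤ μ * b ^ (2 * m) + μ⁻¹ * R2 ^ (2 * m) := by
      have e1 : b ^ (2 * m) = b ^ m * b ^ m := by rw [← pow_add]; congr 1; ring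
      have e2 : R2 ^ (2 * m) = R2 ^ m * R2 ^ m := by rw [← pow_add]; congr 1; ring
      rw [e1, e2]
      have h3 : 0 ≤ μ⁻¹ * (μ * b ^ m - R2 ^ m) ^ 2 := by positivity
      have h4 : μ⁻¹ * (μ * b ^ m - R2 ^ m) ^ 2 =
          μ * (b ^ m * b ^ m) + μ⁻¹ * (R2 ^ m * R2 ^ m) - 2 * (b ^ m * R2 ^ m) := by
        field_simp
        ring
      linarith
    simp only [hw]
    linarith
  have hS : HasSum (fun m => a m * w m) (μ * 0 + μ⁻¹ * V2 - 2 * V1) := by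
    refine S.congr_fun ?_
    intro m
    simp only [hw]
    ring
  set M : ℕ := ⌈κ' * ℓ⌉₊ with hM
  have hlow := sum_le_hasSum (Finset.range M) (fun m hm => by
    rw [Finset.mem_range, not_lt] at hm
    have h1 : κ' * ℓ ≤ m := (Nat.le_ceil _).trans (by exact_mod_cast hm)
    exact mul_nonneg (hpos m h1) (hw0 m)) hS
  obtain ⟨Q, hQ⟩ : ∃ Q : ℝ, Q = 2 * Real.exp (ℓ * (R - 3 * ε)) := ⟨_, rfl⟩
  have hQ0 : 0 ≤ Q := by rw [hQ]; positivity
  have hheadQ : ∀ m ∈ Finset.range M, -Q ≤ a m * w m := by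
    intro m hm
    rw [Finset.mem_range, hM, Nat.lt_ceil] at hm
    have k1 := hhead m
    have hrp : 0 < r ^ (2 * m) := by positivity
    have hwle : w m ≤ 2 * μ * R2 ^ (2 * m) := by
      simp only [hw]
      have h5 : 0 ≤ 2 * R ^ (2 * m) := by positivity
      have h6 : b ^ (2 * m) ≤ R2 ^ (2 * m) := pow_le_pow_left₀ hb0.le hbR2 _
      have h7 : 0 ≤ R2 ^ (2 * m) := by positivity
      have h8 : μ⁻¹ ≤ μ := (inv_le_one_of_one_le₀ hμ1).trans hμ1
      have h9 : μ * b ^ (2 * m) ≤ μ * R2 ^ (2 * m) := by gcongr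
      have h10 : μ⁻¹ * R2 ^ (2 * m) ≤ μ * R2 ^ (2 * m) := by gcongr
      linarith
    have hrm : R2 ^ (2 * m) / r ^ (2 * m) ≤ Real.exp (ℓ * (2 * κ' * Real.log (R2 / r))) := by
      rw [← div_pow, ← Real.rpow_natCast, Real.rpow_def_of_pos (by positivity)]
      apply Real.exp_le_exp.2
      push_cast
      calc Real.log (R2 / r) * (2 * m) ≤ Real.log (R2 / r) * (2 * (κ' * ℓ)) := by gcongr
        _ = _ := by ring
    have h2' : |a m * w m| ≤ Q := by
      rw [abs_mul, abs_of_nonneg (hw0 m)]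
      calc |a m| * w m ≤ (Real.exp (ℓ * h) / r ^ (2 * m)) * (2 * μ * R2 ^ (2 * m)) :=
            mul_le_mul k1 hwle (hw0 m) (by positivity)
        _ = 2 * (Real.exp (ℓ * h) * μ) * (R2 ^ (2 * m) / r ^ (2 * m)) := by ring
        _ ≤ 2 * (Real.exp (ℓ * h) * μ) * Real.exp (ℓ * (2 * κ' * Real.log (R2 / r))) := by gcongr
        _ = 2 * (Real.exp (ℓ * h) * μ * Real.exp (ℓ * (2 * κ' * Real.log (R2 / r)))) := by ring
        _ ≤ 2 * Real.exp (ℓ * (R - 3 * ε)) := by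
            rw [hμ, ← Real.exp_add, ← Real.exp_add]
            refine mul_le_mul_of_nonneg_left (Real.exp_le_exp.2 ?_) (by norm_num)
            have : ℓ * h + ℓ * μ' + ℓ * (2 * κ' * Real.log (R2 / r)) = ℓ * (h + μ' + 2 * κ' * Real.log (R2 / r)) := by
              ring
            rw [this]
            exact mul_le_mul_of_nonneg_left (by linarith) hℓ
        _ = Q := hQ.symm
    exact (abs_le.1 h2').1
  have hsumle := Finset.sum_le_sum hheadQ
  rw [Finset.sum_const, Finset.card_range, nsmul_eq_mul] at hsumle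
  have hMle : (M : ℝ) * 2 ≤ Real.exp (ε * ℓ) := by
    have k1 : (M : ℝ) < κ' * ℓ + 1 := Nat.ceil_lt_add_one (by positivity)
    linarith
  obtain ⟨Z, hZ⟩ : ∃ Z : ℝ, Z = Real.exp (ℓ * (R - 2 * ε)) := ⟨_, rfl⟩
  have hZ0 : 0 < Z := by rw [hZ]; positivity
  have t1 : μ⁻¹ * V2 ≤ Z := by
    calc μ⁻¹ * V2 ≤ μ⁻¹ * (Real.exp (ℓ * (R2 + ε))) :=
          mul_le_mul_of_nonneg_left hV2 (by positivity)
      _ = Real.exp (ℓ * (R2 + ε - μ')) := by
          rw [hμ, ← Real.exp_neg, ← Real.exp_add]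
          congr 1
          ring
      _ ≤ Z := by
          rw [hZ]
          exact Real.exp_le_exp.2 (mul_le_mul_of_nonneg_left h1 hℓ)
  have t2 : (M : ℝ) * Q ≤ Z := by
    calc (M : ℝ) * Q = ((M : ℝ) * 2) * (Real.exp (ℓ * (R - 3 * ε))) := by rw [hQ]; ring
      _ ≤ Real.exp (ε * ℓ) * (Real.exp (ℓ * (R - 3 * ε))) := by gcongr
      _ = Z := by
          rw [hZ, ← Real.exp_add]
          congr 1
          ring
  have t3 : V1 ≤ Z := by
    have e0 : μ * (0 : ℝ) = 0 := by ring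
    rw [e0, zero_add] at hlow
    have h5 := hsumle.trans hlow
    linarith
  have t4 := hV1.trans t3
  have t6 : Real.exp (ℓ * (R - ε)) = Real.exp (ε * ℓ) * Z := by
    rw [hZ, ← Real.exp_add]
    congr 1
    ring
  rw [t6] at t4
  nlinarith

lemma lin_mul_exp {c ε K : ℝ} (hε : 0 < ε) (hK : 0 < K) : ∃ X : ℝ, ∀ ℓ : ℝ, X ≤ ℓ → K * (c * ℓ + 1) ≤ Real.exp (ε * ℓ) := by
  refine ⟨max 0 (2 * K * (|c| / ε + 1) / ε), fun ℓ hℓ => ?_⟩
  have h0 : 0 ≤ ℓ := (le_max_left _ _).trans hℓ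
  have h1 : 2 * K * (|c| / ε + 1) / ε ≤ ℓ := (le_max_right _ _).trans hℓ
  rw [div_le_iff₀ hε] at h1
  have h2 := Real.quadratic_le_exp_of_nonneg (x := ε * ℓ) (by positivity)
  have h3 : 0 ≤ |c| := abs_nonneg c
  have h4 : c * ℓ ≤ |c| * ℓ := mul_le_mul_of_nonneg_right (le_abs_self c) h0
  have h5 : K * (|c| * ℓ) ≤ (ε * ℓ) ^ 2 / 2 := by
    have h6 : 2 * K * (|c| / ε) ≤ ℓ * ε := by
      have : 0 ≤ 2 * K := by positivity
      nlinarith
    have h7 : 2 * K * (|c| / ε) * (ε * ℓ) ≤ (ℓ * ε) * (ε * ℓ) := mul_le_mul_of_nonneg_right h6 (by positivity)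
    have h8 : 2 * K * (|c| / ε) * (ε * ℓ) = 2 * (K * (|c| * ℓ)) := by field_simp
    rw [h8] at h7
    nlinarith
  have h9 : K ≤ ε * ℓ := by
    have : 0 ≤ 2 * K * (|c| / ε) := by positivity
    nlinarith
  nlinarith

/-- `‖g (p + i y)‖² = Σ Lag_m y^{2m}` -/
theorem lag_sum {g : ℂ → ℂ} (hg : Differentiable ℂ g)
    (hre : ∀ z, g ((starRingEnd ℂ) z) = (starRingEnd ℂ) (g z)) (p y : ℝ) :
    HasSum (fun m : ℕ => Lag g p m * y ^ (2 * m)) (‖g (p + y * I)‖ ^ 2) := by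
  have h1 := Complex.hasSum_re (Pool.Agent.Helper36.LQ.tc_hasSum hg (p : ℂ) (y : ℂ))
  have e1 : (S g p y).re = ‖g (p + y * I)‖ ^ 2 := by
    have e2 : g (p - I * y) = (starRingEnd ℂ) (g (p + I * y)) := by
      rw [← hre]
      congr 1
      simp [sub_eq_add_neg]
    rw [S, e2, Complex.mul_conj, Complex.ofReal_re, Complex.normSq_eq_norm_sq, mul_comm I]
  rw [e1] at h1
  refine h1.congr_fun ?_
  intro m
  rw [Lag]
  have : ((y : ℂ) ^ (2 * m)) = ((y ^ (2 * m) : ℝ) : ℂ) := by push_cast; rfl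
  rw [this, Complex.re_mul_ofReal]

/-- **W4**: the Laguerre inequalities push the zeros down -/
theorem w4 (h1 : St_W1) (h2 : St_W2) : St_W4 := by
  intro G L a κ r b hG ha0 ha1 hκ0 hr0 hrb hb1 hlt hline hnz hlag
  have hb0 : 0 < b := by linarith
  have hlbr : 0 ≤ Real.log (b / r) := Real.log_nonneg (by rw [le_div_iff₀ hr0]; linarith)
  obtain ⟨g, hg⟩ : ∃ g : ℝ, g = b - (2 * a + r + 2 * κ * Real.log (b / r)) := ⟨_, rfl⟩
  have hg0 : 0 < g := by linarith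
  have hgb : g ≤ b := by
    have : 0 ≤ 2 * κ * Real.log (b / r) := by positivity
    linarith
  obtain ⟨s, hs⟩ : ∃ s : ℝ, s = g * b / (96 * (κ + 1)) := ⟨_, rfl⟩
  have hs0 : 0 < s := by rw [hs]; positivity
  have hsg : s ≤ g / 96 := by
    rw [hs, div_le_div_iff₀ (by positivity) (by norm_num)]
    nlinarith [mul_pos hg0 hb0]
  have hsκ : 6 * κ * s / b ≤ g / 16 := by
    have e : 6 * κ * s / b = 6 * κ * g / (96 * (κ + 1)) := by
      rw [hs]; field_simp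
    rw [e, div_le_div_iff₀ (by positivity) (by norm_num)]
    nlinarith
  have hl1 : 0 ≤ Real.log (1 / r) := Real.log_nonneg (by rw [le_div_iff₀ hr0]; linarith)
  obtain ⟨τ, hτ⟩ : ∃ τ : ℝ, τ = min (s / 4) ((g / 32) / (Real.log (1 / r) + 1)) := ⟨_, rfl⟩
  have hτ0 : 0 < τ := by rw [hτ]; positivity
  have hτs : τ ≤ s / 4 := by rw [hτ]; exact min_le_left _ _
  have hτl : τ * Real.log (1 / r) ≤ g / 32 := by
    have h1 : τ ≤ (g / 32) / (Real.log (1 / r) + 1) := by rw [hτ]; exact min_le_right _ _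
    rw [le_div_iff₀ (by linarith)] at h1
    nlinarith
  obtain ⟨ε, hε⟩ : ∃ ε : ℝ, ε = s / 8 := ⟨_, rfl⟩
  have hε0 : 0 < ε := by linarith
  have hbτ : 0 < b - τ := by linarith
  obtain ⟨R, hR⟩ : ∃ R : ℝ, R = b + s := ⟨_, rfl⟩
  have hR0 : 0 < R := by linarith
  obtain ⟨R2, hR2⟩ : ∃ R2 : ℝ, R2 = R ^ 2 / (b - τ) := ⟨_, rfl⟩
  have hR2e : R2 * (b - τ) = R ^ 2 := by rw [hR2]; field_simp
  have hR2le : R2 ≤ b + 3 * s := by
    rw [hR2, div_le_iff₀ hbτ, hR]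
    have h1 : (b + 3 * s) * (b - s / 4) ≤ (b + 3 * s) * (b - τ) := mul_le_mul_of_nonneg_left (by linarith) (by linarith)
    nlinarith
  have hR2ge : R ≤ R2 := by
    rw [hR2, le_div_iff₀ hbτ, sq]
    exact mul_le_mul_of_nonneg_left (by linarith) hR0.le
  have hR20 : 0 < R2 := by linarith
  have hR21 : R2 ≤ 1 := by linarith
  have hrR2 : r ≤ R2 := by linarith
  have hl0 : 0 ≤ Real.log (R2 / r) := Real.log_nonneg (by rw [le_div_iff₀ hr0]; linarith)
  have hlogsplit : Real.log (R2 / r) ≤ Real.log (b / r) + 3 * s / b := by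
    have e : R2 / r = (b / r) * (R2 / b) := by field_simp
    rw [e, Real.log_mul (by positivity) (by positivity)]
    have h1 : Real.log (R2 / b) ≤ R2 / b - 1 := Real.log_le_sub_one_of_pos (by positivity)
    have h2 : R2 / b - 1 ≤ 3 * s / b := by
      rw [div_sub_one hb0.ne', div_le_div_iff_of_pos_right hb0]
      linarith
    linarith
  have hlog1 : Real.log (R2 / r) ≤ Real.log (1 / r) :=
    Real.log_le_log (by positivity) (div_le_div_of_nonneg_right hR21 hr0.le)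
  have hκ'l : 2 * (κ + τ) * Real.log (R2 / r) ≤ 2 * κ * Real.log (b / r) + g / 8 := by
    have h1 : 2 * κ * Real.log (R2 / r) ≤ 2 * κ * (Real.log (b / r) + 3 * s / b) :=
      mul_le_mul_of_nonneg_left hlogsplit (by positivity)
    have h2 : 2 * κ * (3 * s / b) = 6 * κ * s / b := by ring
    have h3 : 2 * τ * Real.log (R2 / r) ≤ 2 * τ * Real.log (1 / r) := mul_le_mul_of_nonneg_left hlog1 (by positivity)
    nlinarith
  refine ⟨b - τ, hbτ.le, by linarith, ?_⟩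
  intro η hη W
  obtain ⟨Xe, hXe⟩ := lin_mul_exp (c := κ + τ) hε0 (K := 2) (by norm_num)
  filter_upwards [h1 G L a hG ha0 ha1 hline (ε / 2) (by positivity) (W + 1),
    h2 G L b hG hb0.le hnz (ε / 2) (by positivity) W, hnz τ hτ0 W, hlag τ hτ0 W,
    hG.lim.eventually_ge_atTop Xe, hG.lim.eventually_ge_atTop 1] with j hup htwo hz0 hpos hLX hL1
  intro w hw hwy hwy1 hzero
  obtain ⟨ℓ, hℓ⟩ : ∃ ℓ : ℝ, ℓ = L j := ⟨_, rfl⟩
  rw [← hℓ] at hup htwo hpos hLX hL1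
  have hℓ0 : 0 < ℓ := by linarith
  obtain ⟨p, hp⟩ : ∃ p : ℝ, p = w.re := ⟨_, rfl⟩
  obtain ⟨y, hy⟩ : ∃ y : ℝ, y = w.im := ⟨_, rfl⟩
  rw [← hp] at hw
  rw [← hy] at hwy hwy1
  have hw' : w = (p : ℂ) + (y : ℂ) * I := by rw [hp, hy]; exact (Complex.re_add_im w).symm
  rw [hw'] at hzero
  have hyb : y < b + τ := by
    by_contra hcon
    rw [not_lt] at hcon
    exact hz0 (p + y * I) (by simpa using hw) (by simpa using hcon) (by simpa using hwy1) hzero
  have hy0 : 0 < y := by linarith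
  have hW0 : 0 ≤ W := (abs_nonneg _).trans hw
  -- the head
  have hcirc : ∀ ζ : ℂ, |ζ.re| ≤ W + 1 → |ζ.im| ≤ r → ‖G j ζ‖ ≤ Real.exp (ℓ * (a + r / 2 + ε / 2)) := by
    have main : ∀ ζ : ℂ, |ζ.re| ≤ W + 1 → |ζ.im| ≤ r → 0 ≤ ζ.im → ‖G j ζ‖ ≤ Real.exp (ℓ * (a + r / 2 + ε / 2)) := by
      intro ζ h3 h4 h5
      rw [abs_of_nonneg h5] at h4
      refine (hup ζ h3 h5 (by linarith)).trans (Real.exp_le_exp.2 ?_)
      exact mul_le_mul_of_nonneg_left (by linarith) hℓ0.le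
    intro ζ h3 h4
    rcases le_total 0 ζ.im with h5 | h5
    · exact main ζ h3 h4 h5
    · have h6 := main ((starRingEnd ℂ) ζ) (by simpa using h3) (by simpa using h4) (by simpa using h5)
      rwa [hG.re, Complex.norm_conj] at h6
  have hhead : ∀ m : ℕ, |Lag (G j) p m| ≤ Real.exp (ℓ * (2 * a + r + ε)) / r ^ (2 * m) := by
    intro m
    refine (Complex.abs_re_le_norm _).trans ?_
    refine Pool.Agent.Helper36.LQ.tc_le (Pool.Agent.Helper36.LQ.S_differentiable (hG.ent j) p) hr0 ?_ (2 * m)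
    intro ζ hζ
    have hp' := abs_le.1 hw
    have hi := (Complex.abs_im_le_norm ζ).trans hζ.le
    have hr' := (Complex.abs_re_le_norm ζ).trans hζ.le
    have hi' := abs_le.1 hi
    rw [S, norm_mul]
    have e1 := hcirc (p + I * ζ) (by
      have : ((p : ℂ) + I * ζ).re = p - ζ.im := by simp [sub_eq_add_neg]
      rw [this, abs_le]; constructor <;> linarith) (by simpa using hr')
    have e2 := hcirc (p - I * ζ) (by
      have : ((p : ℂ) - I * ζ).re = p + ζ.im := by simp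
      rw [this, abs_le]; constructor <;> linarith) (by simpa using hr')
    refine (mul_le_mul e1 e2 (norm_nonneg _) (Real.exp_pos _).le).trans (le_of_eq ?_)
    rw [← Real.exp_add]
    congr 1
    ring
  have two : ∀ Y : ℝ, b + ε / 2 ≤ Y → Y ≤ 1 →
      Real.exp (ℓ * (Y - ε)) ≤ ‖G j (p + Y * I)‖ ^ 2 ∧ ‖G j (p + Y * I)‖ ^ 2 ≤ Real.exp (ℓ * (Y + ε)) := by
    intro Y hY1 hY2
    obtain ⟨q1, q2⟩ := htwo (p + Y * I) (by simpa using hw) (by simpa using hY1) (by simp; linarith)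
    have him : ((p : ℂ) + Y * I).im = Y := by simp
    rw [him] at q1 q2
    constructor
    · refine le_trans (le_of_eq ?_) (pow_le_pow_left₀ (Real.exp_pos _).le q1 2)
      rw [← Real.exp_nat_mul]
      congr 1
      push_cast
      ring
    · refine (pow_le_pow_left₀ (norm_nonneg _) q2 2).trans (le_of_eq ?_)
      rw [← Real.exp_nat_mul]
      congr 1
      push_cast
      ring
  have s1 := lag_sum (hG.ent j) (hG.re j) p y
  rw [hzero, norm_zero, zero_pow (by norm_num)] at s1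
  have hbig := hXe ℓ hLX
  refine core_abs (a := fun m => Lag (G j) p m) (b := y) (R := R) (R2 := R2) (r := r) (ℓ := ℓ) (μ' := 4 * s)
    (h := 2 * a + r + ε) (κ' := κ + τ) (ε := ε) hy0 (by linarith) ?_ hR0 hr0 hrR2 hℓ0.le (by linarith)
    (by linarith) (fun m hm => hpos p hw m hm) hhead s1 (lag_sum (hG.ent j) (hG.re j) p R2)
    (lag_sum (hG.ent j) (hG.re j) p R) (two R (by linarith) (by linarith)).1
    (two R2 (by linarith) hR21).2 (by linarith) (by linarith) hbig ?_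
  · rw [← hR2e, mul_comm]
    exact mul_le_mul_of_nonneg_right (by linarith) hR20.le
  · have : 0 ≤ (κ + τ) * ℓ := by positivity
    linarith

end Pool.Agent.Helper85.AL
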